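import Mathlib

set_option autoImplicit false

open Finset

namespace Pool.Agent.X179.ResFin

/-- A finitely generated abelian group is residually finite, for finitely many elements at once. -/
theorem exists_finite_hom (H : Type) [AddCommGroup H] [AddGroup.FG H] (T : Finset H)
    (hT : ∀ t ∈ T, t ≠ 0) :
    ∃ (K : Type) (_ : AddCommGroup K) (_ : Finite K) (φ : H →+ K), ∀ t ∈ T, φ t ≠ 0 := by
  classical
  obtain ⟨n, ι, _, p, hp, e, ⟨f⟩⟩ := AddCommGroup.equiv_free_prod_directSum_zmod H
  -- the bound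
  obtain ⟨N, hN⟩ : ∃ N : ℕ, ∀ t ∈ T, ∀ i : Fin n, ((f t).1 i).natAbs < N := by
    refine ⟨(∑ t ∈ T, ∑ i : Fin n, ((f t).1 i).natAbs) + 1, ?_⟩
    intro t ht i
    have h1 : ((f t).1 i).natAbs ≤ ∑ i : Fin n, ((f t).1 i).natAbs :=
      Finset.single_le_sum (f := fun i => ((f t).1 i).natAbs) (fun _ _ => Nat.zero_le _)
        (Finset.mem_univ i)
    have h2 : (∑ i : Fin n, ((f t).1 i).natAbs) ≤ ∑ t ∈ T, ∑ i : Fin n, ((f t).1 i).natAbs :=
      Finset.single_le_sum (f := fun t => ∑ i : Fin n, ((f t).1 i).natAbs)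
        (fun _ _ => Nat.zero_le _) ht
    omega
  haveI : ∀ i, NeZero (p i ^ e i) := fun i => ⟨pow_ne_zero _ (hp i).ne_zero⟩
  -- K = (Fin n → ZMod (N+1)) × (∀ i, ZMod (p i ^ e i))
  refine ⟨(Fin n → ZMod (N + 1)) × (∀ i : ι, ZMod (p i ^ e i)), inferInstance, ?_, ?_, ?_⟩
  · haveI : ∀ i : ι, Finite (ZMod (p i ^ e i)) := fun i => inferInstance
    infer_instance
  · exact
      { toFun := fun h => (fun i => (((f h).1 i : ℤ) : ZMod (N + 1)), fun i => (f h).2 i)
        map_zero' := by
          ext i <;> simp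
        map_add' := by
          intro x y
          ext i <;> simp }
  · intro t ht h0
    have h0' : ((fun i => (((f t).1 i : ℤ) : ZMod (N + 1)), fun i => (f t).2 i) :
        (Fin n → ZMod (N + 1)) × (∀ i : ι, ZMod (p i ^ e i))) = 0 := h0
    rw [Prod.mk_eq_zero] at h0'
    obtain ⟨h1, h2⟩ := h0'
    apply hT t ht
    have h3 : f t = 0 := by
      apply Prod.ext
      · ext i
        have h4 := congrFun h1 i
        simp only [Pi.zero_apply] at h4
        rw [ZMod.intCast_zmod_eq_zero_iff_dvd] at h4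
        have h5 := hN t ht i
        have h6 : (f t).1 i = 0 := by
          apply Int.eq_zero_of_abs_lt_dvd h4
          rw [Int.abs_eq_natAbs]
          exact_mod_cast (by omega : ((f t).1 i).natAbs < N + 1)
        simpa using h6
      · ext i
        have h4 := congrFun h2 i
        simpa using h4
    exact (AddEquiv.map_eq_zero_iff f).1 h3

end Pool.Agent.X179.ResFin
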