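import Mathlib

/-! Hausdorff limits of symmetric zonotopes. -/

set_option autoImplicit false
open scoped Pointwise

namespace Pool.Agent.X179.Zonoid

variable {n : ℕ}

theorem mem_seg {v x : EuclideanSpace ℝ (Fin n)} :
    x ∈ segment ℝ (-v) v ↔ ∃ t ∈ Set.Icc (-1 : ℝ) 1, x = t • v := by
  rw [segment_eq_image]
  constructor
  · rintro ⟨θ, hθ, rfl⟩
    exact ⟨2 * θ - 1, ⟨by linarith [hθ.1], by linarith [hθ.2]⟩, by simp only; module⟩
  · rintro ⟨t, ht, rfl⟩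
    exact ⟨(t + 1) / 2, ⟨by linarith [ht.1], by linarith [ht.2]⟩, by simp only; module⟩

theorem mem_sum {m : ℕ} {v : Fin m → EuclideanSpace ℝ (Fin n)} {x : EuclideanSpace ℝ (Fin n)} :
    x ∈ ∑ i, segment ℝ (-v i) (v i) ↔
      ∃ t : Fin m → ℝ, (∀ j, t j ∈ Set.Icc (-1 : ℝ) 1) ∧ x = ∑ j, t j • v j := by
  rw [Set.mem_fintype_sum]
  constructor
  · rintro ⟨g, hg, rfl⟩
    choose t ht h using fun i => mem_seg.1 (hg i)
    exact ⟨t, ht, Finset.sum_congr rfl fun i _ => h i⟩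
  · rintro ⟨t, ht, rfl⟩
    exact ⟨fun j => t j • v j, fun j => mem_seg.2 ⟨t j, ht j, rfl⟩, rfl⟩

theorem sum_convex {m : ℕ} (v : Fin m → EuclideanSpace ℝ (Fin n)) :
    Convex ℝ (∑ i, segment ℝ (-v i) (v i)) := by
  intro x hx y hy a b ha hb hab
  obtain ⟨t, ht, rfl⟩ := mem_sum.1 hx
  obtain ⟨s, hs, rfl⟩ := mem_sum.1 hy
  refine mem_sum.2 ⟨fun j => a * t j + b * s j, fun j => ?_, ?_⟩
  · have := (convex_Icc (-1 : ℝ) 1) (ht j) (hs j) ha hb hab
    simpa using this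
  · rw [Finset.smul_sum, Finset.smul_sum, ← Finset.sum_add_distrib]
    exact Finset.sum_congr rfl fun j _ => by module

theorem sum_symm {m : ℕ} (v : Fin m → EuclideanSpace ℝ (Fin n)) {x : EuclideanSpace ℝ (Fin n)}
    (hx : x ∈ ∑ i, segment ℝ (-v i) (v i)) : -x ∈ ∑ i, segment ℝ (-v i) (v i) := by
  obtain ⟨t, ht, rfl⟩ := mem_sum.1 hx
  refine mem_sum.2 ⟨fun j => -t j, fun j => ⟨by linarith [(ht j).2], by linarith [(ht j).1]⟩, ?_⟩
  rw [← Finset.sum_neg_distrib]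
  exact Finset.sum_congr rfl fun j _ => by module

theorem sum_bounded {m : ℕ} (v : Fin m → EuclideanSpace ℝ (Fin n)) :
    Bornology.IsBounded (∑ i, segment ℝ (-v i) (v i)) := by
  rw [Metric.isBounded_iff_subset_closedBall 0]
  refine ⟨∑ j, ‖v j‖, fun x hx => ?_⟩
  obtain ⟨t, ht, rfl⟩ := mem_sum.1 hx
  rw [mem_closedBall_zero_iff]
  refine (norm_sum_le _ _).trans (Finset.sum_le_sum fun j _ => ?_)
  rw [norm_smul]
  have : ‖t j‖ ≤ 1 := abs_le.2 (ht j)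
  nlinarith [norm_nonneg (v j)]

theorem sum_nonempty {m : ℕ} (v : Fin m → EuclideanSpace ℝ (Fin n)) :
    (∑ i, segment ℝ (-v i) (v i)).Nonempty :=
  ⟨0, mem_sum.2 ⟨fun _ => 0, fun _ => ⟨by norm_num, by norm_num⟩, by simp⟩⟩

section

variable {K : Set (EuclideanSpace ℝ (Fin n))} (hK : IsCompact K) (hne : K.Nonempty)
  (hlim : ∀ δ : ℝ, 0 < δ → ∃ m : ℕ, ∃ v : Fin m → EuclideanSpace ℝ (Fin n),
          Metric.hausdorffDist K (∑ i, segment ℝ (-v i) (v i)) < δ)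

include hK hne hlim

theorem approx {δ : ℝ} (hδ : 0 < δ) : ∃ Z : Set (EuclideanSpace ℝ (Fin n)), Convex ℝ Z ∧
    (∀ x ∈ Z, -x ∈ Z) ∧ (∀ x ∈ K, ∃ y ∈ Z, dist x y < δ) ∧ (∀ y ∈ Z, ∃ x ∈ K, dist x y < δ) := by
  obtain ⟨m, v, h⟩ := hlim δ hδ
  have hfin := Metric.hausdorffEDist_ne_top_of_nonempty_of_bounded hne (sum_nonempty v)
    hK.isBounded (sum_bounded v)
  refine ⟨_, sum_convex v, fun x hx => sum_symm v hx, fun x hx => ?_, fun y hy => ?_⟩
  · exact Metric.exists_dist_lt_of_hausdorffDist_lt hx h hfin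
  · exact Metric.exists_dist_lt_of_hausdorffDist_lt' hy h hfin

theorem lim_convex : Convex ℝ K := by
  intro x hx y hy a b ha hb hab
  rw [← hK.isClosed.closure_eq, Metric.mem_closure_iff]
  intro ε hε
  obtain ⟨Z, hZ, -, h1, h2⟩ := approx hK hne hlim (half_pos hε)
  obtain ⟨x', hx', hxx⟩ := h1 x hx
  obtain ⟨y', hy', hyy⟩ := h1 y hy
  obtain ⟨p, hp, hpp⟩ := h2 _ (hZ hx' hy' ha hb hab)
  refine ⟨p, hp, ?_⟩
  have e : dist (a • x + b • y) (a • x' + b • y') ≤ a * dist x x' + b * dist y y' := by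
    refine (dist_add_add_le _ _ _ _).trans (le_of_eq ?_)
    rw [dist_smul₀, dist_smul₀, Real.norm_of_nonneg ha, Real.norm_of_nonneg hb]
  have e2 : a * dist x x' + b * dist y y' ≤ ε / 2 := by
    have h3 : a * dist x x' ≤ a * (ε / 2) := mul_le_mul_of_nonneg_left hxx.le ha
    have h4 : b * dist y y' ≤ b * (ε / 2) := mul_le_mul_of_nonneg_left hyy.le hb
    have h5 : a * (ε / 2) + b * (ε / 2) = ε / 2 := by rw [← add_mul, hab, one_mul]
    linarith
  rw [dist_comm] at hpp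
  linarith [dist_triangle (a • x + b • y) (a • x' + b • y') p]

theorem lim_symm : ∀ x ∈ K, -x ∈ K := by
  intro x hx
  rw [← hK.isClosed.closure_eq, Metric.mem_closure_iff]
  intro ε hε
  obtain ⟨Z, -, hZ, h1, h2⟩ := approx hK hne hlim (half_pos hε)
  obtain ⟨x', hx', hxx⟩ := h1 x hx
  obtain ⟨p, hp, hpp⟩ := h2 _ (hZ x' hx')
  refine ⟨p, hp, ?_⟩
  have e : dist (-x) (-x') = dist x x' := dist_neg_neg x x'
  rw [dist_comm] at hpp
  linarith [dist_triangle (-x) (-x') p]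

end

end Pool.Agent.X179.Zonoid
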