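import Mathlib

/-! Cavalieri's principle for the sum of a convex body and a segment. -/

set_option autoImplicit false

open MeasureTheory Set
open scoped Pointwise ENNReal

namespace Pool.Agent.X179.Box

theorem vol_slice {S : Set ℝ} (hS : IsCompact S) (hc : Convex ℝ S) (hne : S.Nonempty) {s : ℝ}
    (hs : 0 ≤ s) : volume (S + Icc 0 s) = volume S + ENNReal.ofReal s := by
  have h1 : S = Icc (sInf S) (sSup S) :=
    eq_Icc_of_connected_compact ⟨hne, hc.isPreconnected⟩ hS
  set α := sInf S with hα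
  set β := sSup S with hβ
  have hαβ : α ≤ β := by
    obtain ⟨x, hx⟩ := hne
    rw [h1] at hx
    exact hx.1.trans hx.2
  rw [h1]
  have h2 : Icc α β + Icc 0 s = Icc α (β + s) := by
    ext x
    rw [Set.mem_add]
    constructor
    · rintro ⟨y, hy, z, hz, rfl⟩
      exact ⟨by linarith [hy.1, hz.1], by linarith [hy.2, hz.2]⟩
    · intro hx
      rcases le_total x β with h | h
      · exact ⟨x, ⟨hx.1, h⟩, 0, ⟨le_rfl, hs⟩, add_zero _⟩
      · exact ⟨β, ⟨hαβ, le_rfl⟩, x - β, ⟨by linarith, by linarith [hx.2]⟩, by ring⟩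
  rw [h2, Real.volume_Icc, Real.volume_Icc, ← ENNReal.ofReal_add (by linarith) hs]
  congr 1
  ring

theorem prod_add_seg {F : Type*} [NormedAddCommGroup F] [NormedSpace ℝ F] [MeasurableSpace F]
    [BorelSpace F] [SecondCountableTopology F] (ν : Measure F) [SFinite ν]
    {K : Set (ℝ × F)} (hK : IsCompact K) (hc : Convex ℝ K) {s : ℝ} (hs : 0 ≤ s) :
    (volume.prod ν) (K + Icc 0 s ×ˢ {0}) =
      (volume.prod ν) K + ENNReal.ofReal s * ν (Prod.snd '' K) := by
  have hC : IsCompact (K + Icc (0 : ℝ) s ×ˢ {(0 : F)}) :=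
    hK.add (isCompact_Icc.prod isCompact_singleton)
  rw [Measure.prod_apply_symm hC.isClosed.measurableSet,
    Measure.prod_apply_symm hK.isClosed.measurableSet]
  have hsl : ∀ y : F, (fun x : ℝ => (x, y)) ⁻¹' (K + Icc (0 : ℝ) s ×ˢ {(0 : F)}) =
      (fun x : ℝ => (x, y)) ⁻¹' K + Icc 0 s := by
    intro y
    ext x
    simp only [mem_preimage, Set.mem_add]
    constructor
    · rintro ⟨⟨a, b⟩, hab, ⟨c, d⟩, hcd, h⟩
      rw [mem_prod, mem_singleton_iff] at hcd
      obtain ⟨hc1, hd⟩ := hcd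
      simp only at hd hc1
      subst hd
      rw [Prod.mk_add_mk, Prod.mk.injEq, add_zero] at h
      obtain ⟨h1, rfl⟩ := h
      exact ⟨a, hab, c, hc1, h1⟩
    · rintro ⟨a, ha, c, hc1, rfl⟩
      exact ⟨(a, y), ha, (c, 0), ⟨hc1, rfl⟩, by simp⟩
  have hcomp : ∀ y : F, IsCompact ((fun x : ℝ => (x, y)) ⁻¹' K) := by
    intro y
    have : (fun x : ℝ => (x, y)) ⁻¹' K = Prod.fst '' (K ∩ (univ ×ˢ {y})) := by
      ext x
      simp only [mem_preimage, mem_image, mem_inter_iff, mem_prod, mem_univ, true_and,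
        mem_singleton_iff]
      constructor
      · intro h; exact ⟨(x, y), ⟨h, rfl⟩, rfl⟩
      · rintro ⟨⟨a, b⟩, ⟨h, rfl⟩, rfl⟩; exact h
    rw [this]
    exact (hK.inter_right (isClosed_univ.prod isClosed_singleton)).image continuous_fst
  have hconv : ∀ y : F, Convex ℝ ((fun x : ℝ => (x, y)) ⁻¹' K) := by
    intro y a ha b hb α β hα hβ hαβ
    have := hc ha hb hα hβ hαβ
    simp only [Prod.smul_mk, Prod.mk_add_mk, ← add_smul, hαβ, one_smul] at this
    exact this
  have hmeas : MeasurableSet (Prod.snd '' K) := (hK.image continuous_snd).isClosed.measurableSet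
  have hfun : ∀ y : F, volume ((fun x : ℝ => (x, y)) ⁻¹' (K + Icc (0 : ℝ) s ×ˢ {(0 : F)})) =
      volume ((fun x : ℝ => (x, y)) ⁻¹' K) +
        (Prod.snd '' K).indicator (fun _ => ENNReal.ofReal s) y := by
    intro y
    rw [hsl]
    by_cases hy : y ∈ Prod.snd '' K
    · rw [indicator_of_mem hy]
      refine vol_slice (hcomp y) (hconv y) ?_ hs
      obtain ⟨⟨a, b⟩, hab, rfl⟩ := hy
      exact ⟨a, hab⟩
    · rw [indicator_of_notMem hy]
      have : (fun x : ℝ => (x, y)) ⁻¹' K = ∅ := by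
        ext x
        simp only [mem_preimage, mem_empty_iff_false, iff_false]
        intro h
        exact hy ⟨(x, y), h, rfl⟩
      rw [this]
      simp
  simp only [hfun]
  rw [lintegral_add_right _ (measurable_const.indicator hmeas), lintegral_indicator hmeas,
    lintegral_const, Measure.restrict_apply MeasurableSet.univ, univ_inter]

/-- three-space -/
abbrev E := EuclideanSpace ℝ (Fin 3)

theorem exists_basis (e : E) (he : ‖e‖ = 1) : ∃ b : OrthonormalBasis (Fin 3) ℝ E, b 0 = e := by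
  have hv : Orthonormal ℝ (({0} : Set (Fin 3)).domRestrict (fun _ : Fin 3 => e)) := by
    rw [orthonormal_iff_ite]
    intro i j
    have : i = j := Subsingleton.elim _ _
    subst this
    simp [Set.domRestrict, he]
  obtain ⟨b, hb⟩ := hv.exists_orthonormalBasis_extension_of_card_eq (by simp)
  exact ⟨b, hb 0 rfl⟩

end Pool.Agent.X179.Box
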