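import Pool.Agent.X179.BoxA

/-! Cavalieri's principle in three-space; boxes in an orthonormal frame. -/

set_option autoImplicit false

open MeasureTheory Set
open scoped Pointwise ENNReal

namespace Pool.Agent.X179.Box

/-- coordinates with respect to an orthonormal basis, the first one split off -/
noncomputable def phi (b : OrthonormalBasis (Fin 3) ℝ E) : E ≃ᵐ ℝ × (Fin 2 → ℝ) :=
  (b.measurableEquiv.trans (MeasurableEquiv.toLp 2 (Fin 3 → ℝ)).symm).trans
    (MeasurableEquiv.piFinSuccAbove (fun _ => ℝ) 0)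

theorem phi_apply (b : OrthonormalBasis (Fin 3) ℝ E) (x : E) :
    phi b x = (inner ℝ (b 0) x, fun j : Fin 2 => inner ℝ (b j.succ) x) := by
  have h : ∀ i, (b.repr x) i = inner ℝ (b i) x := fun i => b.repr_apply_apply x i
  refine Prod.ext ?_ ?_
  · exact h 0
  · funext j
    exact h j.succ

theorem phi_mp (b : OrthonormalBasis (Fin 3) ℝ E) :
    MeasurePreserving (phi b) volume (volume.prod volume) :=
  (b.measurePreserving_measurableEquiv.trans
    (EuclideanSpace.volume_preserving_symm_measurableEquiv_toLp (Fin 3))).trans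
      (volume_preserving_piFinSuccAbove (fun _ => ℝ) 0)

theorem phi_vol (b : OrthonormalBasis (Fin 3) ℝ E) (S : Set E) :
    volume S = (volume.prod volume) (phi b '' S) := by
  rw [← (phi_mp b).measure_preimage_equiv, preimage_image_eq _ (phi b).injective]

theorem phi_add (b : OrthonormalBasis (Fin 3) ℝ E) (x y : E) :
    phi b (x + y) = phi b x + phi b y := by
  simp only [phi_apply, inner_add_right]
  rfl

theorem phi_smul (b : OrthonormalBasis (Fin 3) ℝ E) (c : ℝ) (x : E) :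
    phi b (c • x) = c • phi b x := by
  simp only [phi_apply, inner_smul_right]
  rfl

theorem phi_cont (b : OrthonormalBasis (Fin 3) ℝ E) : Continuous (phi b) := by
  have : (phi b : E → ℝ × (Fin 2 → ℝ)) =
      fun x => (inner ℝ (b 0) x, fun j : Fin 2 => inner ℝ (b j.succ) x) := funext (phi_apply b)
  rw [this]
  fun_prop

theorem phi_image_add (b : OrthonormalBasis (Fin 3) ℝ E) (S T : Set E) :
    phi b '' (S + T) = phi b '' S + phi b '' T := by
  ext z
  simp only [mem_image, Set.mem_add]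
  constructor
  · rintro ⟨x, ⟨y, hy, w, hw, rfl⟩, rfl⟩
    exact ⟨phi b y, ⟨y, hy, rfl⟩, phi b w, ⟨w, hw, rfl⟩, (phi_add b y w).symm⟩
  · rintro ⟨_, ⟨y, hy, rfl⟩, _, ⟨w, hw, rfl⟩, rfl⟩
    exact ⟨y + w, ⟨y, hy, w, hw, rfl⟩, phi_add b y w⟩

theorem phi_basis (b : OrthonormalBasis (Fin 3) ℝ E) : phi b (b 0) = (1, 0) := by
  rw [phi_apply]
  refine Prod.ext ?_ ?_
  · simp
  · funext j
    simp only [Pi.zero_apply]
    rw [b.inner_eq_ite, if_neg (Fin.succ_ne_zero j)]

theorem phi_seg (b : OrthonormalBasis (Fin 3) ℝ E) {s : ℝ} (hs : 0 ≤ s) :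
    phi b '' segment ℝ 0 (s • b 0) = Icc 0 s ×ˢ {0} := by
  ext ⟨x, y⟩
  simp only [mem_image, mem_prod, mem_singleton_iff]
  constructor
  · rintro ⟨z, hz, h⟩
    rw [segment_eq_image] at hz
    obtain ⟨θ, hθ, rfl⟩ := hz
    simp only at h
    rw [smul_zero, zero_add, smul_smul, phi_smul, phi_basis] at h
    rw [Prod.smul_mk, smul_zero, Prod.mk.injEq, smul_eq_mul, mul_one] at h
    obtain ⟨rfl, rfl⟩ := h
    exact ⟨⟨mul_nonneg hθ.1 hs, by nlinarith [hθ.2]⟩, rfl⟩
  · rintro ⟨hx, rfl⟩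
    refine ⟨x • b 0, ?_, ?_⟩
    · rcases hs.eq_or_lt with h | h
      · have : x = 0 := by rw [← h] at hx; exact le_antisymm hx.2 hx.1
        rw [this, zero_smul]
        exact left_mem_segment ℝ _ _
      · rw [segment_eq_image]
        refine ⟨x / s, ⟨by have := hx.1; positivity, (div_le_one h).2 hx.2⟩, ?_⟩
        simp only [smul_zero, zero_add, smul_smul]
        rw [div_mul_cancel₀ _ h.ne']
    · rw [phi_smul, phi_basis, Prod.smul_mk, smul_zero, smul_eq_mul, mul_one]

/-- the orthogonal projection along `e` -/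
noncomputable def pr (e : E) (x : E) : E := x - (inner ℝ e x) • e

theorem inner_pr (e : E) (he : ‖e‖ = 1) (x : E) : inner ℝ e (pr e x) = 0 := by
  rw [pr, inner_sub_right, inner_smul_right, real_inner_self_eq_norm_sq, he]
  ring

theorem pr_of_inner {e x : E} (h : inner ℝ e x = 0) : pr e x = x := by
  rw [pr, h, zero_smul, sub_zero]

theorem inner_pr' {e f : E} (h : inner ℝ f e = 0) (x : E) :
    inner ℝ f (pr e x) = inner ℝ f x := by
  rw [pr, inner_sub_right, inner_smul_right, h]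
  ring

theorem pr_cont (e : E) : Continuous (pr e) := by
  unfold pr
  fun_prop

theorem pr_add (e x y : E) : pr e (x + y) = pr e x + pr e y := by
  simp only [pr, inner_add_right, add_smul]
  abel

theorem pr_smul (e : E) (c : ℝ) (x : E) : pr e (c • x) = c • pr e x := by
  simp only [pr, inner_smul_right, smul_sub, smul_smul]

theorem pr_convex (e : E) {K : Set E} (hc : Convex ℝ K) : Convex ℝ (pr e '' K) := by
  rintro _ ⟨x, hx, rfl⟩ _ ⟨y, hy, rfl⟩ α β hα hβ hαβ
  exact ⟨α • x + β • y, hc hx hy hα hβ hαβ, by rw [pr_add, pr_smul, pr_smul]⟩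

/-- Cavalieri -/
theorem vol_add_seg {K : Set E} (hK : IsCompact K) (hc : Convex ℝ K) {e : E} (he : ‖e‖ = 1)
    {s : ℝ} (hs : 0 ≤ s) :
    volume (K + segment ℝ 0 (s • e)) =
      volume K + ENNReal.ofReal s * volume (pr e '' K + segment ℝ 0 e) := by
  obtain ⟨b, rfl⟩ := exists_basis e he
  have h1 : IsCompact (phi b '' K) := hK.image (phi_cont b)
  have h2 : Convex ℝ (phi b '' K) := by
    rintro _ ⟨x, hx, rfl⟩ _ ⟨y, hy, rfl⟩ α β hα hβ hαβ
    exact ⟨α • x + β • y, hc hx hy hα hβ hαβ, by rw [phi_add, phi_smul, phi_smul]⟩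
  rw [phi_vol b (K + _), phi_image_add, phi_seg b hs, prod_add_seg volume h1 h2 hs,
    ← phi_vol b K]
  congr 2
  rw [phi_vol b (_ + _), phi_image_add]
  have h3 : segment ℝ 0 (b 0) = segment ℝ 0 ((1 : ℝ) • b 0) := by rw [one_smul]
  rw [h3, phi_seg b zero_le_one]
  have h4 : phi b '' (pr (b 0) '' K) + Icc (0 : ℝ) 1 ×ˢ {(0 : Fin 2 → ℝ)} =
      Icc (0 : ℝ) 1 ×ˢ (Prod.snd '' (phi b '' K)) := by
    have h5 : ∀ x : E, phi b (pr (b 0) x) = (0, (phi b x).2) := by
      intro x
      rw [phi_apply, phi_apply]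
      refine Prod.ext ?_ ?_
      · exact inner_pr (b 0) he x
      · funext j
        exact inner_pr' (by rw [b.inner_eq_ite, if_neg (Fin.succ_ne_zero j)]) x
    ext ⟨x, y⟩
    rw [Set.mem_add]
    constructor
    · rintro ⟨_, ⟨_, ⟨k, hk, rfl⟩, rfl⟩, ⟨c, d⟩, ⟨hc1, hd⟩, h⟩
      simp only [mem_singleton_iff] at hd hc1
      rw [h5, hd, Prod.mk_add_mk, Prod.mk.injEq, zero_add, add_zero] at h
      obtain ⟨rfl, rfl⟩ := h
      exact ⟨hc1, phi b k, ⟨k, hk, rfl⟩, rfl⟩
    · rintro ⟨hx, _, ⟨k, hk, rfl⟩, rfl⟩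
      refine ⟨phi b (pr (b 0) k), ⟨_, ⟨k, hk, rfl⟩, rfl⟩, (x, 0), ⟨hx, rfl⟩, ?_⟩
      rw [h5, Prod.mk_add_mk, zero_add, add_zero]
  rw [h4, Measure.prod_prod, Real.volume_Icc]
  simp

/-- a box in an orthonormal frame -/
theorem vol_frame (b : OrthonormalBasis (Fin 3) ℝ E) (l r : Fin 3 → ℝ) :
    volume {x : E | ∀ i, inner ℝ (b i) x ∈ Icc (l i) (r i)} =
      ∏ i, ENNReal.ofReal (r i - l i) := by
  have h1 : {x : E | ∀ i, inner ℝ (b i) x ∈ Icc (l i) (r i)} =
      (b.measurableEquiv.trans (MeasurableEquiv.toLp 2 (Fin 3 → ℝ)).symm) ⁻¹'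
        (Set.univ.pi fun i => Icc (l i) (r i)) := by
    ext x
    simp only [mem_ofPred_eq, mem_preimage, mem_pi, mem_univ, true_implies]
    have h : ∀ i, (b.measurableEquiv.trans (MeasurableEquiv.toLp 2 (Fin 3 → ℝ)).symm) x i =
      inner ℝ (b i) x := fun i => b.repr_apply_apply x i
    simp only [h]
  rw [h1, (b.measurePreserving_measurableEquiv.trans
    (EuclideanSpace.volume_preserving_symm_measurableEquiv_toLp
      (Fin 3))).measure_preimage_equiv, volume_pi_pi]
  simp only [Real.volume_Icc]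

end Pool.Agent.X179.Box
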