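import Pool.Agent.X179.BoxB

/-! Two-sided bounds for the volume of the neighbourhoods of a planar projection. -/

set_option autoImplicit false

open MeasureTheory Set
open scoped Pointwise ENNReal

namespace Pool.Agent.X179.Box

theorem mem_seg {e x : E} {c : ℝ} (hc : 0 ≤ c) :
    x ∈ segment ℝ 0 (c • e) ↔ ∃ r ∈ Icc 0 c, x = r • e := by
  rw [segment_eq_image]
  constructor
  · rintro ⟨θ, hθ, rfl⟩
    refine ⟨θ * c, ⟨mul_nonneg hθ.1 hc, by nlinarith [hθ.2]⟩, ?_⟩
    simp only [smul_zero, zero_add, smul_smul]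
  · rintro ⟨r, hr, rfl⟩
    rcases hc.eq_or_lt with h | h
    · refine ⟨0, ⟨le_rfl, zero_le_one⟩, ?_⟩
      have : r = 0 := by rw [← h] at hr; exact le_antisymm hr.2 hr.1
      simp [this]
    · refine ⟨r / c, ⟨by have := hr.1; positivity, (div_le_one h).2 hr.2⟩, ?_⟩
      simp only [smul_zero, zero_add, smul_smul]
      rw [div_mul_cancel₀ _ h.ne']

theorem mem_seg1 {e x : E} : x ∈ segment ℝ 0 e ↔ ∃ r ∈ Icc (0 : ℝ) 1, x = r • e := by
  have h := mem_seg (e := e) (x := x) zero_le_one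
  rwa [one_smul] at h

theorem seg_compact (x y : E) : IsCompact (segment ℝ x y) := by
  rw [segment_eq_image]
  exact isCompact_Icc.image (by fun_prop)

theorem expand (b : OrthonormalBasis (Fin 3) ℝ E) (x : E) :
    x = (inner ℝ (b 0) x) • b 0 + (inner ℝ (b 1) x) • b 1 + (inner ℝ (b 2) x) • b 2 := by
  have h := b.sum_repr x
  simp only [b.repr_apply_apply, Fin.sum_univ_three] at h
  exact h.symm

section

variable {K : Set E} (hK : IsCompact K) (hc : Convex ℝ K) (b : OrthonormalBasis (Fin 3) ℝ E)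

theorem ib (b : OrthonormalBasis (Fin 3) ℝ E) (i j : Fin 3) (h : i ≠ j) :
    inner ℝ (b i) (b j) = 0 := by
  rw [b.inner_eq_ite, if_neg h]

theorem ib' (b : OrthonormalBasis (Fin 3) ℝ E) (i : Fin 3) : inner ℝ (b i) (b i) = (1 : ℝ) := by
  rw [b.inner_eq_ite, if_pos rfl]

theorem bn (b : OrthonormalBasis (Fin 3) ℝ E) (i : Fin 3) : ‖b i‖ = 1 := b.norm_eq_one i

theorem vol_plane (b : OrthonormalBasis (Fin 3) ℝ E) (L : Set E)
    (hL : ∀ x ∈ L, inner ℝ (b 0) x = 0) : volume L = 0 := by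
  have h1 : L ⊆ ((LinearMap.ker (innerSL ℝ (b 0)).toLinearMap : Submodule ℝ E) : Set E) := by
    intro x hx
    exact hL x hx
  refine measure_mono_null h1 (Measure.addHaar_submodule volume _ ?_)
  intro h
  have h2 : b 0 ∈ (⊤ : Submodule ℝ E) := Submodule.mem_top
  rw [← h] at h2
  have h3 : inner ℝ (b 0) (b 0) = (0 : ℝ) := h2
  rw [ib'] at h3
  exact one_ne_zero h3

include hK hc in
/-- the volume of the cylinder over the projection -/
theorem vol_cyl {s : ℝ} (hs : 0 ≤ s) :
    volume (pr (b 0) '' K + segment ℝ 0 (s • b 0)) =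
      ENNReal.ofReal s * volume (pr (b 0) '' K + segment ℝ 0 (b 0)) := by
  have h1 : ∀ x ∈ pr (b 0) '' K, inner ℝ (b 0) x = 0 := by
    rintro _ ⟨k, -, rfl⟩
    exact inner_pr _ (bn b 0) k
  have h2 : pr (b 0) '' (pr (b 0) '' K) = pr (b 0) '' K := by
    rw [← image_comp]
    refine image_congr fun x _ => ?_
    exact pr_of_inner (inner_pr _ (bn b 0) x)
  rw [vol_add_seg (hK.image (pr_cont _)) (pr_convex _ hc) (bn b 0) hs, h2, vol_plane b _ h1,
    zero_add]

include hK hc in
theorem upper {t : ℝ} (ht : 0 ≤ t) (hn : ∀ x ∈ K, ‖x‖ ≤ 3 / 4) :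
    volume (pr (b 0) '' K + Metric.closedBall 0 t) ≤
      ENNReal.ofReal (2 * t) * volume (pr (b 0) '' K + segment ℝ 0 (b 0)) +
        ENNReal.ofReal (12 * t ^ 2 + 8 * t ^ 3) := by
  set L := pr (b 0) '' K with hL
  have h2t : (0 : ℝ) ≤ 2 * t := by linarith
  have hin : ∀ (i : Fin 3) (x : E), |inner ℝ (b i) x| ≤ ‖x‖ := by
    intro i x
    have := abs_real_inner_le_norm (b i) x
    rwa [bn, one_mul] at this
  -- the elements of `L`
  have hL0 : ∀ x ∈ L, inner ℝ (b 0) x = 0 := by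
    rintro _ ⟨k, -, rfl⟩
    exact inner_pr _ (bn b 0) k
  have hL1 : ∀ i : Fin 3, i ≠ 0 → ∀ x ∈ L, -(3 / 4) ≤ inner ℝ (b i) x ∧
      inner ℝ (b i) x ≤ 3 / 4 := by
    rintro i hi _ ⟨k, hk, rfl⟩
    rw [inner_pr' (ib b i 0 hi)]
    have := (hin i k).trans (hn k hk)
    exact abs_le.1 this
  have hLc : IsCompact L := hK.image (pr_cont _)
  have hLv : Convex ℝ L := pr_convex _ hc
  set M0 := L + segment ℝ 0 ((2 * t) • b 0) with hM0
  set M1 := M0 + segment ℝ 0 ((2 * t) • b 1) with hM1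
  set M2 := M1 + segment ℝ 0 ((2 * t) • b 2) with hM2
  have hM0c : IsCompact M0 := hLc.add (seg_compact _ _)
  have hM0v : Convex ℝ M0 := hLv.add (convex_segment _ _)
  have hM1c : IsCompact M1 := hM0c.add (seg_compact _ _)
  have hM1v : Convex ℝ M1 := hM0v.add (convex_segment _ _)
  have e0 : volume M0 = ENNReal.ofReal (2 * t) * volume (L + segment ℝ 0 (b 0)) :=
    vol_cyl hK hc b h2t
  have e1 : volume M1 = volume M0 + ENNReal.ofReal (2 * t) *
      volume (pr (b 1) '' M0 + segment ℝ 0 (b 1)) := vol_add_seg hM0c hM0v (bn b 1) h2t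
  have e2 : volume M2 = volume M1 + ENNReal.ofReal (2 * t) *
      volume (pr (b 2) '' M1 + segment ℝ 0 (b 2)) := vol_add_seg hM1c hM1v (bn b 2) h2t
  have f1 : volume (pr (b 1) '' M0 + segment ℝ 0 (b 1)) ≤ ENNReal.ofReal (2 * t * (3 / 2)) := by
    have hsub : pr (b 1) '' M0 + segment ℝ 0 (b 1) ⊆ {x : E | ∀ i, inner ℝ (b i) x ∈
        Icc ((![0, 0, -(3/4)] : Fin 3 → ℝ) i) ((![2 * t, 1, 3/4] : Fin 3 → ℝ) i)} := by
      rintro _ ⟨_, ⟨_, ⟨l, hl, s, hs, rfl⟩, rfl⟩, s', hs', rfl⟩
      obtain ⟨r, hr, rfl⟩ := (mem_seg h2t).1 hs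
      obtain ⟨r', hr', rfl⟩ := mem_seg1.1 hs'
      intro i
      fin_cases i
      · simp only [Fin.zero_eta, Fin.isValue, inner_add_right, inner_smul_right, Matrix.cons_val_zero]
        rw [inner_pr' (ib b 0 1 (by decide)), inner_add_right, inner_smul_right, hL0 l hl, ib', ib b 0 1 (by decide)]
        constructor <;> linarith [hr.1, hr.2]
      · simp only [Fin.mk_one, Fin.isValue, inner_add_right, inner_smul_right, Matrix.cons_val_one]
        rw [inner_pr _ (bn b 1), ib']
        simpa using hr'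
      · simp only [Fin.reduceFinMk, Fin.isValue, inner_add_right, inner_smul_right, Matrix.cons_val]
        rw [inner_pr' (ib b 2 1 (by decide)), inner_add_right, inner_smul_right, ib b 2 0 (by decide),
          ib b 2 1 (by decide)]
        have := hL1 2 (by decide) l hl
        constructor <;> linarith [this.1, this.2]
    refine (measure_mono hsub).trans ?_
    rw [vol_frame, Fin.prod_univ_three]
    simp only [Fin.isValue, Matrix.cons_val_zero, Matrix.cons_val_one, Matrix.cons_val]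
    rw [← ENNReal.ofReal_mul (by linarith), ← ENNReal.ofReal_mul (by linarith)]
    refine le_of_eq ?_
    congr 1
    ring
  have f2 : volume (pr (b 2) '' M1 + segment ℝ 0 (b 2)) ≤
      ENNReal.ofReal (2 * t * (3 / 2 + 2 * t)) := by
    have hsub : pr (b 2) '' M1 + segment ℝ 0 (b 2) ⊆ {x : E | ∀ i, inner ℝ (b i) x ∈
        Icc ((![0, -(3/4), 0] : Fin 3 → ℝ) i) ((![2 * t, 3/4 + 2 * t, 1] : Fin 3 → ℝ) i)} := by
      rintro _ ⟨_, ⟨_, ⟨_, ⟨l, hl, s, hs, rfl⟩, s₁, hs₁, rfl⟩, rfl⟩, s', hs', rfl⟩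
      obtain ⟨r, hr, rfl⟩ := (mem_seg h2t).1 hs
      obtain ⟨r₁, hr₁, rfl⟩ := (mem_seg h2t).1 hs₁
      obtain ⟨r', hr', rfl⟩ := mem_seg1.1 hs'
      intro i
      fin_cases i
      · simp only [Fin.zero_eta, Fin.isValue, inner_add_right, inner_smul_right, Matrix.cons_val_zero]
        rw [inner_pr' (ib b 0 2 (by decide)), inner_add_right, inner_add_right, inner_smul_right,
          inner_smul_right, hL0 l hl, ib', ib b 0 1 (by decide), ib b 0 2 (by decide)]
        constructor <;> linarith [hr.1, hr.2]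
      · simp only [Fin.mk_one, Fin.isValue, inner_add_right, inner_smul_right, Matrix.cons_val_one,
          Matrix.cons_val_zero]
        rw [inner_pr' (ib b 1 2 (by decide)), inner_add_right, inner_add_right, inner_smul_right,
          inner_smul_right, ib', ib b 1 0 (by decide), ib b 1 2 (by decide)]
        have := hL1 1 (by decide) l hl
        constructor <;> linarith [this.1, this.2, hr₁.1, hr₁.2]
      · simp only [Fin.reduceFinMk, Fin.isValue, inner_add_right, inner_smul_right, Matrix.cons_val]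
        rw [inner_pr _ (bn b 2), ib']
        simpa using hr'
    refine (measure_mono hsub).trans ?_
    rw [vol_frame, Fin.prod_univ_three]
    simp only [Fin.isValue, Matrix.cons_val_zero, Matrix.cons_val_one, Matrix.cons_val]
    rw [← ENNReal.ofReal_mul (by linarith), ← ENNReal.ofReal_mul (by nlinarith)]
    refine le_of_eq ?_
    congr 1
    ring
  have hsub : L + Metric.closedBall 0 t ⊆ (fun x => x + t • (b 0 + b 1 + b 2)) ⁻¹' M2 := by
    rintro _ ⟨l, hl, y, hy, rfl⟩
    rw [mem_closedBall_zero_iff] at hy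
    have hy' : ∀ i, -t ≤ inner ℝ (b i) y ∧ inner ℝ (b i) y ≤ t := fun i =>
      abs_le.1 ((hin i y).trans hy)
    refine ⟨l + (inner ℝ (b 0) y + t) • b 0 + (inner ℝ (b 1) y + t) • b 1,
      ⟨l + (inner ℝ (b 0) y + t) • b 0, ⟨l, hl, (inner ℝ (b 0) y + t) • b 0, ?_, rfl⟩,
        (inner ℝ (b 1) y + t) • b 1, ?_, rfl⟩, (inner ℝ (b 2) y + t) • b 2, ?_, ?_⟩
    · exact (mem_seg h2t).2 ⟨_, ⟨by linarith [(hy' 0).1], by linarith [(hy' 0).2]⟩, rfl⟩
    · exact (mem_seg h2t).2 ⟨_, ⟨by linarith [(hy' 1).1], by linarith [(hy' 1).2]⟩, rfl⟩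
    · exact (mem_seg h2t).2 ⟨_, ⟨by linarith [(hy' 2).1], by linarith [(hy' 2).2]⟩, rfl⟩
    · simp only
      conv_rhs => rw [expand b y]
      module
  calc volume (L + Metric.closedBall 0 t) ≤ volume M2 := by
        refine (measure_mono hsub).trans ?_
        rw [measure_preimage_add_right]
    _ ≤ _ := by
        rw [e2, e1, e0, add_assoc]
        refine add_le_add le_rfl ?_
        calc _ ≤ ENNReal.ofReal (2 * t) * ENNReal.ofReal (2 * t * (3 / 2)) +
              ENNReal.ofReal (2 * t) * ENNReal.ofReal (2 * t * (3 / 2 + 2 * t)) :=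
              add_le_add (mul_le_mul_right f1 _) (mul_le_mul_right f2 _)
          _ = _ := by
            rw [← ENNReal.ofReal_mul h2t, ← ENNReal.ofReal_mul h2t,
              ← ENNReal.ofReal_add (by positivity) (by positivity)]
            congr 1
            ring

include hK hc in
theorem lower {t ρ : ℝ} (ht : 0 < t) (hB : Metric.closedBall 0 ρ ⊆ K) :
    ENNReal.ofReal (2 * t) * volume (pr (b 0) '' K + segment ℝ 0 (b 0)) +
      ENNReal.ofReal (ρ * t ^ 2) ≤ volume (pr (b 0) '' K + Metric.closedBall 0 t) := by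
  set L := pr (b 0) '' K with hL
  have h2t : (0 : ℝ) ≤ 2 * t := by linarith
  have ht2 : (0 : ℝ) ≤ t / 2 := by linarith
  have hL0 : ∀ x ∈ L, inner ℝ (b 0) x = 0 := by
    rintro _ ⟨k, -, rfl⟩
    exact inner_pr _ (bn b 0) k
  have hLc : IsCompact L := hK.image (pr_cont _)
  have hLv : Convex ℝ L := pr_convex _ hc
  set N := L + segment ℝ 0 (t • b 0) with hN
  have hNc : IsCompact N := hLc.add (seg_compact _ _)
  have hNv : Convex ℝ N := hLv.add (convex_segment _ _)
  set A := volume (L + segment ℝ 0 (b 0)) with hA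
  have eN : volume N = ENNReal.ofReal t * A := vol_cyl hK hc b ht.le
  have e0 : volume (L + segment ℝ 0 ((2 * t) • b 0)) = ENNReal.ofReal (2 * t) * A :=
    vol_cyl hK hc b h2t
  have e1 : volume (N + segment ℝ 0 ((t / 2) • b 1)) = volume N + ENNReal.ofReal (t / 2) *
      volume (pr (b 1) '' N + segment ℝ 0 (b 1)) := vol_add_seg hNc hNv (bn b 1) ht2
  have f1 : ENNReal.ofReal (t * (2 * ρ)) ≤ volume (pr (b 1) '' N + segment ℝ 0 (b 1)) := by
    have hsub : {x : E | ∀ i, inner ℝ (b i) x ∈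
        Icc ((![0, 0, -ρ] : Fin 3 → ℝ) i) ((![t, 1, ρ] : Fin 3 → ℝ) i)} ⊆
        pr (b 1) '' N + segment ℝ 0 (b 1) := by
      intro x hx
      have hx0 : inner ℝ (b 0) x ∈ Icc 0 t := hx 0
      have hx1 : inner ℝ (b 1) x ∈ Icc 0 1 := hx 1
      have hx2 : inner ℝ (b 2) x ∈ Icc (-ρ) ρ := hx 2
      have hk : (inner ℝ (b 2) x) • b 2 ∈ K := by
        apply hB
        rw [mem_closedBall_zero_iff, norm_smul, bn, mul_one, Real.norm_eq_abs, abs_le]
        exact hx2
      have hk2 : pr (b 0) ((inner ℝ (b 2) x) • b 2) = (inner ℝ (b 2) x) • b 2 := by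
        apply pr_of_inner
        rw [inner_smul_right, ib b 0 2 (by decide), mul_zero]
      refine ⟨pr (b 1) ((inner ℝ (b 2) x) • b 2 + (inner ℝ (b 0) x) • b 0),
        ⟨_, ⟨(inner ℝ (b 2) x) • b 2, ⟨_, hk, hk2⟩, (inner ℝ (b 0) x) • b 0, ?_, rfl⟩, rfl⟩,
        (inner ℝ (b 1) x) • b 1, mem_seg1.2 ⟨_, hx1, rfl⟩, ?_⟩
      · exact (mem_seg ht.le).2 ⟨_, hx0, rfl⟩
      · simp only
        rw [pr_of_inner]
        · conv_rhs => rw [expand b x]
          abel
        · rw [inner_add_right, inner_smul_right, inner_smul_right, ib b 1 2 (by decide),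
            ib b 1 0 (by decide)]
          ring
    refine le_trans (le_of_eq ?_) (measure_mono hsub)
    rw [vol_frame, Fin.prod_univ_three]
    simp only [Fin.isValue, Matrix.cons_val_zero, Matrix.cons_val_one, Matrix.cons_val]
    rw [← ENNReal.ofReal_mul (by linarith), ← ENNReal.ofReal_mul (by linarith)]
    congr 1
    ring
  set S0 := (fun x : E => x + t • b 0) ⁻¹' (L + segment ℝ 0 ((2 * t) • b 0)) with hS0
  set S1 := (fun x : E => x + (t / 2) • b 0) ⁻¹' (N + segment ℝ 0 ((t / 2) • b 1)) with hS1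
  set SN := (fun x : E => x + (t / 2) • b 0) ⁻¹' N with hSN
  have v0 : volume S0 = ENNReal.ofReal (2 * t) * A := by
    rw [hS0, measure_preimage_add_right, e0]
  have v1 : volume S1 = volume N + ENNReal.ofReal (t / 2) *
      volume (pr (b 1) '' N + segment ℝ 0 (b 1)) := by
    rw [hS1, measure_preimage_add_right, e1]
  have vN : volume SN = volume N := by
    rw [hSN, measure_preimage_add_right]
  have m1 : MeasurableSet S1 :=
    (by fun_prop : Continuous fun x : E => x + (t / 2) • b 0).measurable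
      (hNc.add (seg_compact _ _)).isClosed.measurableSet
  have sub0 : S0 ⊆ L + Metric.closedBall 0 t := by
    rintro x ⟨l, hl, s, hs, h⟩
    obtain ⟨r, hr, rfl⟩ := (mem_seg h2t).1 hs
    refine ⟨l, hl, (r - t) • b 0, ?_, ?_⟩
    · rw [mem_closedBall_zero_iff, norm_smul, bn, mul_one, Real.norm_eq_abs, abs_le]
      constructor <;> linarith [hr.1, hr.2]
    · simp only at h ⊢
      rw [sub_smul, ← add_sub_assoc, h]
      abel
  have sub1 : S1 ⊆ L + Metric.closedBall 0 t := by
    rintro x ⟨_, ⟨l, hl, s, hs, rfl⟩, s', hs', h⟩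
    obtain ⟨r, hr, rfl⟩ := (mem_seg ht.le).1 hs
    obtain ⟨r', hr', rfl⟩ := (mem_seg ht2).1 hs'
    refine ⟨l, hl, (r - t / 2) • b 0 + r' • b 1, ?_, ?_⟩
    · rw [mem_closedBall_zero_iff]
      refine (norm_add_le _ _).trans ?_
      rw [norm_smul, norm_smul, bn, bn, mul_one, mul_one, Real.norm_eq_abs, Real.norm_eq_abs,
        abs_of_nonneg hr'.1]
      have : |r - t / 2| ≤ t / 2 := by
        rw [abs_le]
        constructor <;> linarith [hr.1, hr.2]
      linarith [hr'.2]
    · simp only at h ⊢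
      rw [← add_left_inj ((t / 2) • b 0), ← h, sub_smul]
      abel
  have sub2 : S0 ∩ S1 ⊆ SN := by
    rintro x ⟨⟨l, hl, s, hs, h⟩, ⟨_, ⟨l', hl', s', hs', rfl⟩, s'', hs'', h'⟩⟩
    obtain ⟨r, hr, rfl⟩ := (mem_seg h2t).1 hs
    obtain ⟨r', hr', rfl⟩ := (mem_seg ht.le).1 hs'
    obtain ⟨r'', hr'', rfl⟩ := (mem_seg ht2).1 hs''
    simp only at h h'
    have i1 := congrArg (fun y => inner ℝ (b 0) y) h
    have i2 := congrArg (fun y => inner ℝ (b 0) y) h'
    simp only [inner_add_right, inner_smul_right, hL0 l hl, hL0 l' hl', ib', ib b 0 1 (by decide)]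
      at i1 i2
    refine ⟨l, hl, (r - t / 2) • b 0, (mem_seg ht.le).2 ⟨_, ?_, rfl⟩, ?_⟩
    · constructor <;> linarith [hr'.1, hr'.2]
    · simp only
      rw [← add_left_inj ((t / 2) • b 0), sub_smul]
      have : x + (t / 2) • b 0 + (t / 2) • b 0 = x + t • b 0 := by
        rw [add_assoc, ← add_smul]
        congr 2
        ring
      rw [this, ← h]
      abel
  have hNfin : volume N ≠ ⊤ := hNc.measure_lt_top.ne
  have key : volume (S0 ∪ S1) + volume (S0 ∩ S1) = volume S0 + volume S1 :=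
    measure_union_add_inter S0 m1
  have key2 : volume S0 + volume S1 ≤ volume (S0 ∪ S1) + volume N := by
    rw [← key]
    exact add_le_add le_rfl ((measure_mono sub2).trans_eq vN)
  rw [v0, v1, add_comm (volume N), ← add_assoc] at key2
  have key3 := (ENNReal.add_le_add_iff_right hNfin).1 key2
  calc _ ≤ ENNReal.ofReal (2 * t) * A + ENNReal.ofReal (t / 2) *
        volume (pr (b 1) '' N + segment ℝ 0 (b 1)) := by
        refine add_le_add le_rfl (le_trans (le_of_eq ?_) (mul_le_mul_right f1 _))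
        rw [← ENNReal.ofReal_mul ht2]
        congr 1
        ring
    _ ≤ volume (S0 ∪ S1) := key3
    _ ≤ _ := measure_mono (union_subset sub0 sub1)

end

end Pool.Agent.X179.Box
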