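import Pool.Agent.X179.BoxC

/-! The flat box. -/

set_option autoImplicit false
set_option linter.unusedSimpArgs false
set_option linter.unusedSectionVars false

open MeasureTheory Set
open scoped Pointwise ENNReal

namespace Pool.Agent.X179.Box

/-- axis-parallel boxes -/
def bx (l r : Fin 3 → ℝ) : Set E := {x : E | ∀ i, x i ∈ Icc (l i) (r i)}

theorem vol_bx (l r : Fin 3 → ℝ) : volume (bx l r) = ∏ i, ENNReal.ofReal (r i - l i) := by
  have h := vol_frame (EuclideanSpace.basisFun (Fin 3) ℝ) l r
  have h2 : ∀ (i : Fin 3) (x : E), inner ℝ (EuclideanSpace.basisFun (Fin 3) ℝ i) x = x i := by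
    intro i x
    simp [EuclideanSpace.inner_single_left]
  simp only [h2] at h
  exact h

theorem bx_closed (l r : Fin 3 → ℝ) : IsClosed (bx l r) := by
  have : bx l r = ⋂ i, (fun x : E => x i) ⁻¹' Icc (l i) (r i) := by
    ext x
    simp [bx]
  rw [this]
  exact isClosed_iInter fun i => isClosed_Icc.preimage (by fun_prop)

theorem bx_convex (l r : Fin 3 → ℝ) : Convex ℝ (bx l r) := by
  intro x hx y hy α β hα hβ hαβ i
  have h1 := hx i
  have h2 := hy i
  have h3 := (convex_Icc (l i) (r i)) h1 h2 hα hβ hαβ
  simpa using h3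

/-- half-lengths of the edges -/
noncomputable def hl (h : ℝ) : Fin 3 → ℝ := ![1 / 2, 1 / 2, h / 2]

/-- the flat box -/
noncomputable def flat (h : ℝ) : Set E := bx (-hl h) (hl h)

theorem coord_le (x : E) (i : Fin 3) : |x i| ≤ ‖x‖ := by
  have := EuclideanSpace.norm_sq_eq x
  have h2 : ‖x i‖ ^ 2 ≤ ‖x‖ ^ 2 := by
    rw [this]
    exact Finset.single_le_sum (f := fun i => ‖x i‖ ^ 2) (fun i _ => by positivity)
      (Finset.mem_univ i)
  rw [← Real.norm_eq_abs]
  exact (sq_le_sq₀ (norm_nonneg _) (norm_nonneg _)).1 h2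

section

variable {h : ℝ} (h0 : 0 < h) (h1 : h ≤ 1 / 4)

include h0 h1

theorem flat_norm {x : E} (hx : x ∈ flat h) : ‖x‖ ≤ 3 / 4 := by
  have e := EuclideanSpace.norm_sq_eq x
  rw [Fin.sum_univ_three] at e
  simp only [Real.norm_eq_abs, sq_abs] at e
  have c0 := hx 0
  have c1 := hx 1
  have c2 := hx 2
  simp only [hl, Pi.neg_apply, Matrix.cons_val_zero, Matrix.cons_val_one, Matrix.cons_val,
    mem_Icc] at c0 c1 c2
  have : ‖x‖ ^ 2 ≤ (3 / 4) ^ 2 := by
    rw [e]
    nlinarith [c0.1, c0.2, c1.1, c1.2, c2.1, c2.2]
  exact (sq_le_sq₀ (norm_nonneg _) (by norm_num)).1 this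

theorem flat_compact : IsCompact (flat h) := by
  refine (isCompact_closedBall (0 : E) (3 / 4)).of_isClosed_subset (bx_closed _ _) ?_
  intro x hx
  rw [mem_closedBall_zero_iff]
  exact flat_norm h0 h1 hx

theorem ball_flat : Metric.closedBall 0 (h / 2) ⊆ flat h := by
  intro x hx i
  rw [mem_closedBall_zero_iff] at hx
  have h3 := abs_le.1 ((coord_le x i).trans hx)
  fin_cases i
  · simp only [hl, Pi.neg_apply, Fin.zero_eta, Matrix.cons_val_zero, mem_Icc] at h3 ⊢
    constructor <;> linarith [h3.1, h3.2]
  · simp only [hl, Pi.neg_apply, Fin.mk_one, Matrix.cons_val_one, Matrix.cons_val_zero,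
      mem_Icc] at h3 ⊢
    constructor <;> linarith [h3.1, h3.2]
  · simp only [hl, Pi.neg_apply, Fin.reduceFinMk, Matrix.cons_val, mem_Icc] at h3 ⊢
    constructor <;> linarith [h3.1, h3.2]

theorem vol_flat : volume (flat h) = ENNReal.ofReal h := by
  rw [flat, vol_bx, Fin.prod_univ_three]
  simp only [hl, Pi.neg_apply, Matrix.cons_val_zero, Matrix.cons_val_one, Matrix.cons_val]
  rw [← ENNReal.ofReal_mul (by norm_num), ← ENNReal.ofReal_mul (by norm_num)]
  congr 1
  ring

/-- lower bound for the added volume, `u i ≥ 1 / 2` -/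
theorem add_seg_pos {u : E} (hu : ‖u‖ = 1) {i : Fin 3} (hi : 1 / 2 ≤ u i) :
    ENNReal.ofReal h + ENNReal.ofReal (h / 2) ≤ volume (flat h + segment ℝ 0 u) := by
  set l : Fin 3 → ℝ := fun j => if j = i then max (hl h i) (u i - hl h i) else u j - hl h j
    with hlj
  set r : Fin 3 → ℝ := fun j => u j + hl h j with hr
  have sub1 : bx l r ⊆ flat h + segment ℝ 0 u := by
    intro x hx
    refine ⟨x - u, fun j => ?_, u, right_mem_segment ℝ _ _, by simp⟩
    have hj := hx j
    have hlo : u j - hl h j ≤ l j := by
      simp only [hlj]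
      split_ifs with hji
      · subst hji; exact le_max_right _ _
      · exact le_rfl
    have : (x - u) j = x j - u j := rfl
    rw [this]
    simp only [Pi.neg_apply, mem_Icc]
    constructor
    · linarith [hj.1]
    · have := hj.2
      simp only [hr] at this
      linarith
  have sub2 : flat h ⊆ flat h + segment ℝ 0 u := by
    intro x hx
    exact ⟨x, hx, 0, left_mem_segment ℝ _ _, add_zero x⟩
  have hnull : volume (flat h ∩ bx l r) = 0 := by
    refine measure_mono_null (t := bx (fun j => if j = i then hl h j else -hl h j) (hl h)) ?_ ?_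
    · rintro x ⟨hx, hx'⟩ j
      have h2 := hx j
      have h3 := hx' j
      refine ⟨?_, h2.2⟩
      simp only
      split_ifs with hji
      · subst hji
        have h4 := h3.1
        simp only [hlj, if_true] at h4
        exact (le_max_left _ _).trans h4
      · exact h2.1
    · rw [vol_bx, Finset.prod_eq_zero (Finset.mem_univ i)]
      simp
  have key : volume (flat h ∪ bx l r) + volume (flat h ∩ bx l r) =
      volume (flat h) + volume (bx l r) := measure_union_add_inter _ (bx_closed l r).measurableSet
  rw [hnull, add_zero, vol_flat h0 h1] at key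
  have hT : ENNReal.ofReal (h / 2) ≤ volume (bx l r) := by
    have hui : u i ≤ 1 := (le_abs_self _).trans ((coord_le u i).trans hu.le)
    rw [vol_bx, Fin.prod_univ_three, ← ENNReal.ofReal_mul' , ← ENNReal.ofReal_mul']
    · apply ENNReal.ofReal_le_ofReal
      fin_cases i
      · have hm : max (1 / 2) (u 0 - 1 / 2) = 1 / 2 :=
          max_eq_left (by simp only [Fin.zero_eta] at hui; linarith)
        simp only [hlj, hr, hl, Fin.zero_eta, Fin.isValue, if_true, Matrix.cons_val_zero,
          Matrix.cons_val_one, Matrix.cons_val, one_ne_zero, if_false, Fin.reduceEq, hm] at hi ⊢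
        nlinarith
      · have hm : max (1 / 2) (u 1 - 1 / 2) = 1 / 2 :=
          max_eq_left (by simp only [Fin.mk_one] at hui; linarith)
        simp only [hlj, hr, hl, Fin.mk_one, Fin.isValue, if_true, Matrix.cons_val_zero,
          Matrix.cons_val_one, Matrix.cons_val, zero_ne_one, if_false, Fin.reduceEq, hm] at hi ⊢
        nlinarith
      · have hm : max (h / 2) (u 2 - h / 2) = u 2 - h / 2 :=
          max_eq_right (by simp only [Fin.reduceFinMk] at hi; linarith)
        simp only [hlj, hr, hl, Fin.reduceFinMk, Fin.isValue, if_true, Matrix.cons_val_zero,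
          Matrix.cons_val_one, Matrix.cons_val, if_false, Fin.reduceEq, hm] at hi ⊢
        nlinarith
    · fin_cases i
      · simp only [hlj, hr, hl, Fin.zero_eta, Fin.isValue, if_true, Matrix.cons_val_zero,
          Matrix.cons_val_one, Matrix.cons_val, one_ne_zero, if_false, Fin.reduceEq] at hi ⊢
        linarith
      · have hm : max (1 / 2) (u 1 - 1 / 2) = 1 / 2 :=
          max_eq_left (by simp only [Fin.mk_one] at hui; linarith)
        simp only [hlj, hr, hl, Fin.mk_one, Fin.isValue, if_true, Matrix.cons_val_zero,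
          Matrix.cons_val_one, Matrix.cons_val, zero_ne_one, if_false, Fin.reduceEq, hm] at hi ⊢
        linarith
      · have hm : max (h / 2) (u 2 - h / 2) = u 2 - h / 2 :=
          max_eq_right (by simp only [Fin.reduceFinMk] at hi; linarith)
        simp only [hlj, hr, hl, Fin.reduceFinMk, Fin.isValue, if_true, Matrix.cons_val_zero,
          Matrix.cons_val_one, Matrix.cons_val, if_false, Fin.reduceEq, hm] at hi ⊢
        linarith
    · fin_cases i
      · simp only [hlj, hr, hl, Fin.zero_eta, Fin.isValue, if_true, Matrix.cons_val_zero,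
          Matrix.cons_val_one, Matrix.cons_val, one_ne_zero, if_false, Fin.reduceEq] at hi ⊢
        linarith
      · have hm : max (1 / 2) (u 1 - 1 / 2) = 1 / 2 :=
          max_eq_left (by simp only [Fin.mk_one] at hui; linarith)
        simp only [hlj, hr, hl, Fin.mk_one, Fin.isValue, if_true, Matrix.cons_val_zero,
          Matrix.cons_val_one, Matrix.cons_val, zero_ne_one, if_false, Fin.reduceEq, hm] at hi ⊢
        linarith
      · have hm : max (h / 2) (u 2 - h / 2) = u 2 - h / 2 :=
          max_eq_right (by simp only [Fin.reduceFinMk] at hi; linarith)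
        simp only [hlj, hr, hl, Fin.reduceFinMk, Fin.isValue, if_true, Matrix.cons_val_zero,
          Matrix.cons_val_one, Matrix.cons_val, if_false, Fin.reduceEq, hm] at hi ⊢
        linarith
  calc _ ≤ ENNReal.ofReal h + volume (bx l r) := add_le_add le_rfl hT
    _ = volume (flat h ∪ bx l r) := key.symm
    _ ≤ _ := measure_mono (union_subset sub2 sub1)

theorem add_seg_lower {u : E} (hu : ‖u‖ = 1) :
    ENNReal.ofReal h + ENNReal.ofReal (h / 2) ≤ volume (flat h + segment ℝ 0 u) := by
  have hex : ∃ i : Fin 3, 1 / 2 ≤ |u i| := by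
    by_contra hcon
    push Not at hcon
    have e := EuclideanSpace.norm_sq_eq u
    rw [Fin.sum_univ_three, hu] at e
    simp only [Real.norm_eq_abs] at e
    have c0 := hcon 0
    have c1 := hcon 1
    have c2 := hcon 2
    nlinarith [abs_nonneg (u 0), abs_nonneg (u 1), abs_nonneg (u 2)]
  obtain ⟨i, hi⟩ := hex
  rcases le_total 0 (u i) with hs | hs
  · rw [abs_of_nonneg hs] at hi
    exact add_seg_pos h0 h1 hu hi
  · rw [abs_of_nonpos hs] at hi
    have h2 := add_seg_pos h0 h1 (u := -u) (by rw [norm_neg, hu]) (i := i) hi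
    refine h2.trans (le_of_eq ?_)
    have h3 : (fun x : E => x + u) ⁻¹' (flat h + segment ℝ 0 u) = flat h + segment ℝ 0 (-u) := by
      ext x
      simp only [mem_preimage, Set.mem_add]
      constructor
      · rintro ⟨k, hk, s, hs, h4⟩
        obtain ⟨r, hr, rfl⟩ := mem_seg1.1 hs
        refine ⟨k, hk, (1 - r) • (-u), mem_seg1.2 ⟨_, ⟨by linarith [hr.2], by linarith [hr.1]⟩,
          rfl⟩, ?_⟩
        rw [← add_left_inj u, ← h4]
        module
      · rintro ⟨k, hk, s, hs, rfl⟩
        obtain ⟨r, hr, rfl⟩ := mem_seg1.1 hs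
        refine ⟨k, hk, (1 - r) • u, mem_seg1.2 ⟨_, ⟨by linarith [hr.2], by linarith [hr.1]⟩,
          rfl⟩, ?_⟩
        module
    rw [← h3, measure_preimage_add_right]

theorem ball_upper {t : ℝ} (ht : 0 ≤ t) :
    volume (flat h + Metric.closedBall 0 t) ≤ ENNReal.ofReal ((1 + 2 * t) ^ 2 * (h + 2 * t)) := by
  have hsub : flat h + Metric.closedBall 0 t ⊆ bx (-(hl h) - fun _ => t) (hl h + fun _ => t) := by
    rintro _ ⟨k, hk, y, hy, rfl⟩ i
    rw [mem_closedBall_zero_iff] at hy
    have h3 := abs_le.1 ((coord_le y i).trans hy)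
    have h4 := hk i
    have : (k + y) i = k i + y i := rfl
    simp only [this, Pi.sub_apply, Pi.neg_apply, Pi.add_apply, mem_Icc] at h4 ⊢
    constructor <;> linarith [h3.1, h3.2, h4.1, h4.2]
  refine (measure_mono hsub).trans (le_of_eq ?_)
  rw [vol_bx, Fin.prod_univ_three]
  simp only [hl, Pi.neg_apply, Pi.sub_apply, Pi.add_apply, Matrix.cons_val_zero,
    Matrix.cons_val_one, Matrix.cons_val]
  rw [← ENNReal.ofReal_mul (by linarith), ← ENNReal.ofReal_mul (by nlinarith)]
  congr 1
  ring

/-- the flat box, extended by `t` in the directions `i` -/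
noncomputable def ext (h t : ℝ) (i : Fin 3) : Set E :=
  bx (fun j => if j = i then -(hl h j) - t else -(hl h j))
    (fun j => if j = i then hl h j + t else hl h j)

theorem ball_lower {t : ℝ} (ht : 0 ≤ t) :
    ENNReal.ofReal (h + 2 * t * (1 + 2 * h)) ≤ volume (flat h + Metric.closedBall 0 t) := by
  have hpos : ∀ j, 0 < hl h j := by
    intro j
    fin_cases j
    · simp [hl]
    · simp [hl]
    · simp only [hl, Fin.reduceFinMk, Matrix.cons_val]; linarith
  have hsub : ∀ i, ext h t i ⊆ flat h + Metric.closedBall 0 t := by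
    intro i x hx
    set c : ℝ := max (-(hl h i)) (min (hl h i) (x i)) with hc
    have hxi := hx i
    simp only [if_true] at hxi
    have hc1 : -(hl h i) ≤ c := le_max_left _ _
    have hc2 : c ≤ hl h i := max_le (by linarith [hpos i]) (min_le_left _ _)
    have hc3 : |x i - c| ≤ t := by
      rw [abs_le]
      constructor
      · have : c ≤ x i + t := max_le (by linarith [hxi.1]) ((min_le_right _ _).trans (by linarith))
        linarith
      · have : x i - t ≤ c := le_max_of_le_right (le_min (by linarith [hxi.2]) (by linarith))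
        linarith
    refine ⟨x - EuclideanSpace.single i (x i - c), ?_, EuclideanSpace.single i (x i - c), ?_, ?_⟩
    · intro j
      have e : (x - EuclideanSpace.single i (x i - c)) j =
        x j - (EuclideanSpace.single i (x i - c) : E) j := rfl
      rw [e]
      by_cases hji : j = i
      · subst hji
        simp only [PiLp.single_apply, if_true, Pi.neg_apply, mem_Icc]
        constructor <;> linarith
      · have hxj := hx j
        simp only [if_neg hji] at hxj
        simp only [PiLp.single_apply, if_neg hji, sub_zero, Pi.neg_apply]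
        exact hxj
    · rw [mem_closedBall_zero_iff, PiLp.norm_single, Real.norm_eq_abs]
      exact hc3
    · simp
  have hint : ∀ i j, i ≠ j → ext h t i ∩ ext h t j = flat h := by
    intro i j hij
    ext x
    constructor
    · rintro ⟨hx, hx'⟩ k
      by_cases hk : k = i
      · have h5 := hx' k
        simp only [if_neg (fun e => hij (hk.symm.trans e))] at h5
        exact h5
      · have h5 := hx k
        simp only [if_neg hk] at h5
        exact h5
    · intro hx
      constructor
      · intro k
        have h5 := hx k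
        simp only [Pi.neg_apply, mem_Icc] at h5
        simp only
        split_ifs <;> constructor <;> linarith [h5.1, h5.2]
      · intro k
        have h5 := hx k
        simp only [Pi.neg_apply, mem_Icc] at h5
        simp only
        split_ifs <;> constructor <;> linarith [h5.1, h5.2]
  have hm : ∀ i, MeasurableSet (ext h t i) := fun i => (bx_closed _ _).measurableSet
  have k1 : volume (ext h t 0 ∪ ext h t 1) + volume (ext h t 0 ∩ ext h t 1) =
      volume (ext h t 0) + volume (ext h t 1) := measure_union_add_inter _ (hm 1)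
  have k2 : volume ((ext h t 0 ∪ ext h t 1) ∪ ext h t 2) +
      volume ((ext h t 0 ∪ ext h t 1) ∩ ext h t 2) =
      volume (ext h t 0 ∪ ext h t 1) + volume (ext h t 2) := measure_union_add_inter _ (hm 2)
  have hint2 : (ext h t 0 ∪ ext h t 1) ∩ ext h t 2 = flat h := by
    rw [union_inter_distrib_right, hint 0 2 (by decide), hint 1 2 (by decide), union_self]
  rw [hint 0 1 (by decide)] at k1
  rw [hint2] at k2
  have v0 : volume (ext h t 0) = ENNReal.ofReal ((1 + 2 * t) * h) := by
    rw [ext, vol_bx, Fin.prod_univ_three]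
    simp only [hl, Fin.isValue, if_true, Matrix.cons_val_zero, Matrix.cons_val_one,
      Matrix.cons_val, one_ne_zero, if_false, Fin.reduceEq]
    rw [← ENNReal.ofReal_mul (by linarith), ← ENNReal.ofReal_mul (by linarith)]
    congr 1
    ring
  have v1 : volume (ext h t 1) = ENNReal.ofReal ((1 + 2 * t) * h) := by
    rw [ext, vol_bx, Fin.prod_univ_three]
    simp only [hl, Fin.isValue, if_true, Matrix.cons_val_zero, Matrix.cons_val_one,
      Matrix.cons_val, zero_ne_one, if_false, Fin.reduceEq]
    rw [← ENNReal.ofReal_mul (by linarith), ← ENNReal.ofReal_mul (by linarith)]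
    congr 1
    ring
  have v2 : volume (ext h t 2) = ENNReal.ofReal (h + 2 * t) := by
    rw [ext, vol_bx, Fin.prod_univ_three]
    simp only [hl, Fin.isValue, if_true, Matrix.cons_val_zero, Matrix.cons_val_one,
      Matrix.cons_val, if_false, Fin.reduceEq]
    rw [← ENNReal.ofReal_mul (by linarith), ← ENNReal.ofReal_mul (by linarith)]
    congr 1
    ring
  rw [v0, v1, vol_flat h0 h1] at k1
  rw [v2, vol_flat h0 h1] at k2
  have hU : ((ext h t 0 ∪ ext h t 1) ∪ ext h t 2) ⊆ flat h + Metric.closedBall 0 t :=
    union_subset (union_subset (hsub 0) (hsub 1)) (hsub 2)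
  refine le_trans ?_ (measure_mono hU)
  have k3 : volume ((ext h t 0 ∪ ext h t 1) ∪ ext h t 2) + (ENNReal.ofReal h + ENNReal.ofReal h) =
      ENNReal.ofReal (h + 2 * t * (1 + 2 * h)) + (ENNReal.ofReal h + ENNReal.ofReal h) := by
    rw [← add_assoc, k2, add_right_comm, k1, ← ENNReal.ofReal_add (by nlinarith) (by nlinarith),
      ← ENNReal.ofReal_add (by nlinarith) (by nlinarith),
      ← ENNReal.ofReal_add (by linarith) (by linarith),
      ← ENNReal.ofReal_add (by nlinarith) (by nlinarith)]
    congr 1
    ring
  exact ((ENNReal.add_left_inj (by simp)).1 k3).ge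

end

end Pool.Agent.X179.Box
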